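import Pool.Agent.Helper44.CM.StmtsB5

/-!
Row SUMLIM of the project MM (helper44): geometric series in the class `H2 3`.
-/

namespace CM

theorem slm_pdl_append {n : ℕ} (l : List (Fin n)) (i : Fin n) (f : E n → ℝ) :
    pdl (l ++ [i]) f = pdl l (pd i f) := by
  induction l with
  | nil => rfl
  | cons j l ih =>
    change pd j (pdl (l ++ [i]) f) = pd j (pdl l (pd i f))
    rw [ih]

theorem slm_vec {n : ℕ} (y : E n) : y = ∑ i, y i • EuclideanSpace.single i (1 : ℝ) := by
  have h := (EuclideanSpace.basisFun (Fin n) ℝ).sum_repr y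
  simp only [EuclideanSpace.basisFun_repr, EuclideanSpace.basisFun_apply] at h
  exact h.symm

theorem slm_apply {n : ℕ} (L : E n →L[ℝ] ℝ) (y : E n) :
    L y = ∑ i, y i * L (EuclideanSpace.single i (1 : ℝ)) := by
  conv_lhs => rw [slm_vec y]
  rw [map_sum]
  refine Finset.sum_congr rfl fun i _ => ?_
  rw [map_smul, smul_eq_mul]

theorem slm_norm {n : ℕ} (L : E n →L[ℝ] ℝ) (b : ℝ)
    (h : ∀ i, |L (EuclideanSpace.single i (1 : ℝ))| ≤ b) : ‖L‖ ≤ n * b := by
  rcases Nat.eq_zero_or_pos n with h0 | h0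
  · subst h0
    have hL : L = 0 := by
      ext y
      have hy : y = 0 := Subsingleton.elim _ _
      rw [hy, map_zero, map_zero]
    rw [hL, norm_zero]
    simp
  · have hb : 0 ≤ b := le_trans (abs_nonneg _) (h ⟨0, h0⟩)
    refine ContinuousLinearMap.opNorm_le_bound _ (by positivity) ?_
    intro y
    rw [slm_apply L y]
    calc ‖∑ i, y i * L (EuclideanSpace.single i (1 : ℝ))‖
        ≤ ∑ i, ‖y i * L (EuclideanSpace.single i (1 : ℝ))‖ := norm_sum_le _ _
      _ ≤ ∑ _i : Fin n, ‖y‖ * b := by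
          refine Finset.sum_le_sum fun i _ => ?_
          rw [norm_mul]
          exact mul_le_mul (PiLp.norm_apply_le y i) (h i) (norm_nonneg _) (norm_nonneg _)
      _ = n * b * ‖y‖ := by
          rw [Finset.sum_const, Finset.card_univ, Fintype.card_fin, nsmul_eq_mul]
          ring

theorem slm_eval {n : ℕ} {f' : ℕ → E n →L[ℝ] ℝ} (h : Summable f') (y : E n) :
    HasSum (fun m => f' m y) ((∑' m, f' m) y) :=
  h.hasSum.mapL (ContinuousLinearMap.apply ℝ ℝ y)

theorem slm_contDiff {n : ℕ} (k : ℕ) (G : E n → ℝ) (hd : Differentiable ℝ G)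
    (h : ∀ i, ContDiff ℝ k (pd i G)) : ContDiff ℝ (k + 1 : ℕ) G := by
  have h1 : ((k + 1 : ℕ) : WithTop ℕ∞) = (k : WithTop ℕ∞) + 1 := by push_cast; rfl
  rw [h1, contDiff_succ_iff_fderiv_apply]
  refine ⟨hd, ?_, ?_⟩
  · intro h2
    exact absurd h2 (WithTop.natCast_ne_top k)
  · intro y
    have h2 : (fun x => fderiv ℝ G x y) = fun x => ∑ i, y i * pd i G x := by
      funext x
      exact slm_apply _ y
    rw [h2]
    exact ContDiff.sum fun i _ => contDiff_const.mul (h i)

theorem slm_smooth {n : ℕ} (k : ℕ) (b : ℕ → ℝ) (hb : Summable b) (g : ℕ → E n → ℝ)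
    (hg : ∀ m, ContDiff ℝ k (g m))
    (hbd : ∀ m (l : List (Fin n)), l.length ≤ k → ∀ x, |pdl l (g m) x| ≤ b m) :
    ContDiff ℝ k (fun x => ∑' m, g m x) ∧
      ∀ l : List (Fin n), l.length ≤ k → ∀ x,
        pdl l (fun x => ∑' m, g m x) x = ∑' m, pdl l (g m) x := by
  induction k generalizing g with
  | zero =>
    refine ⟨?_, ?_⟩
    · have h1 : ((0 : ℕ) : WithTop ℕ∞) = 0 := rfl
      rw [h1, contDiff_zero]
      refine continuous_tsum (fun m => (hg m).continuous) hb ?_
      intro m x
      exact hbd m [] (le_refl _) x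
    · intro l hl x
      have hl0 : l = [] := List.length_eq_zero_iff.1 (Nat.le_zero.1 hl)
      rw [hl0]
      rfl
  | succ k ih =>
    have hd : ∀ m x, HasFDerivAt (g m) (fderiv ℝ (g m) x) x := fun m x =>
      ((hg m).differentiable (by norm_num) x).hasFDerivAt
    have hn : ∀ m x, ‖fderiv ℝ (g m) x‖ ≤ n * b m := by
      intro m x
      refine slm_norm _ _ fun i => ?_
      exact hbd m [i] (by simp) x
    have hb' : Summable fun m => (n : ℝ) * b m := hb.mul_left _
    have hsum0 : Summable fun m => g m (0 : E n) :=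
      Summable.of_norm_bounded hb fun m => hbd m [] (by simp) 0
    have hG : ∀ x, HasFDerivAt (fun y => ∑' m, g m y) (∑' m, fderiv ℝ (g m) x) x :=
      fun x => hasFDerivAt_tsum hb' hd hn hsum0 x
    have hsf : ∀ x, Summable fun m => fderiv ℝ (g m) x := fun x =>
      Summable.of_norm_bounded hb' fun m => hn m x
    have hpd : ∀ i, pd i (fun y => ∑' m, g m y) = fun x => ∑' m, pd i (g m) x := by
      intro i
      funext x
      unfold pd
      rw [(hG x).fderiv]
      exact ((slm_eval (hsf x) _).tsum_eq).symm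
    have hpc : ∀ i m, ContDiff ℝ k (pd i (g m)) := by
      intro i m
      have h1 : ((k + 1 : ℕ) : WithTop ℕ∞) = (k : WithTop ℕ∞) + 1 := by push_cast; rfl
      have h2 := hg m
      rw [h1, contDiff_succ_iff_fderiv_apply] at h2
      exact h2.2.2 _
    have hI := fun i => ih (fun m => pd i (g m)) (hpc i) (by
      intro m l hl x
      change |pdl l (pd i (g m)) x| ≤ b m
      rw [← slm_pdl_append]
      exact hbd m (l ++ [i]) (by simpa using hl) x)
    refine ⟨?_, ?_⟩
    · refine slm_contDiff k _ (fun x => (hG x).differentiableAt) ?_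
      intro i
      rw [hpd i]
      exact (hI i).1
    · intro l hl x
      rcases List.eq_nil_or_concat l with rfl | ⟨l', i, rfl⟩
      · rfl
      · have hl' : l'.length ≤ k := by simpa using hl
        rw [List.concat_eq_append, slm_pdl_append, hpd i, (hI i).2 l' hl' x]
        refine tsum_congr fun m => ?_
        rw [slm_pdl_append]

theorem slm_fderiv_even {n : ℕ} (f : E n → ℝ) (hf : IsEv f) : fderiv ℝ f 0 = 0 := by
  by_cases hd : DifferentiableAt ℝ f 0
  · have h1 : HasFDerivAt f (fderiv ℝ f 0) 0 := hd.hasFDerivAt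
    have h2 : HasFDerivAt (fun x : E n => -x) (-ContinuousLinearMap.id ℝ (E n)) (0 : E n) :=
      (hasFDerivAt_id (0 : E n)).neg
    have h1' : HasFDerivAt f (fderiv ℝ f 0) (-(0 : E n)) := by rw [neg_zero]; exact h1
    have h3 : HasFDerivAt (fun x : E n => f (-x))
        ((fderiv ℝ f 0).comp (-ContinuousLinearMap.id ℝ (E n))) (0 : E n) :=
      h1'.comp (0 : E n) h2
    have h4 : (fun x : E n => f (-x)) = f := funext hf
    rw [h4] at h3
    have h5 := h1.unique h3
    ext y
    have h6 := congrArg (fun L : E n →L[ℝ] ℝ => L y) h5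
    have h7 : (fderiv ℝ f 0) y = (fderiv ℝ f 0) (-y) := h6
    rw [map_neg] at h7
    rw [ContinuousLinearMap.zero_apply]
    linarith
  · exact fderiv_zero_of_not_differentiableAt hd

theorem st_SUMLIM : ST_SUMLIM := by
  intro n u M hev hu h0
  have hM : 0 ≤ M := by
    have h := (abs_nonneg _).trans (h0 0)
    simpa using h
  obtain ⟨b, hb⟩ : ∃ b : ℕ → ℝ, b = fun m => M * (1 / 2) ^ m := ⟨_, rfl⟩
  have hb0 : ∀ m, 0 ≤ b m := by
    intro m
    rw [hb]
    positivity
  have hbs : Summable b := by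
    rw [hb]
    exact (summable_geometric_two).mul_left M
  have hbt : ∑' m, b m = 2 * M := by
    rw [hb, tsum_mul_left, tsum_geometric_two]
    ring
  have hu' : ∀ m, H2 3 (b m) (u m) := by
    intro m
    rw [hb]
    exact hu m
  have h0' : ∀ m, |u m 0| ≤ b m := by
    intro m
    rw [hb]
    exact h0 m
  -- second derivatives
  have hS := fun i j => slm_smooth 3 b hbs (fun m => pd i (pd j (u m)))
    (fun m => ((hu' m).2 i j).1) (fun m l hl x => (((hu' m).2 i j).2 l hl).1 x)
  have hc5 : ∀ m, ContDiff ℝ (5 : ℕ) (u m) := fun m => (hu' m).1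
  have hc4 : ∀ m j, ContDiff ℝ (4 : ℕ) (pd j (u m)) := by
    intro m j
    have h1 : ((5 : ℕ) : WithTop ℕ∞) = ((4 : ℕ) : WithTop ℕ∞) + 1 := by norm_num
    have h2 := hc5 m
    rw [h1, contDiff_succ_iff_fderiv_apply] at h2
    exact h2.2.2 _
  -- first derivatives
  have hd1 : ∀ m j x, HasFDerivAt (pd j (u m)) (fderiv ℝ (pd j (u m)) x) x := fun m j x =>
    ((hc4 m j).differentiable (by norm_num) x).hasFDerivAt
  have hn1 : ∀ m j x, ‖fderiv ℝ (pd j (u m)) x‖ ≤ n * b m := by
    intro m j x
    refine slm_norm _ _ fun i => ?_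
    exact (((hu' m).2 i j).2 [] (by simp)).1 x
  have hb' : Summable fun m => (n : ℝ) * b m := hbs.mul_left _
  have hfd0 : ∀ m, fderiv ℝ (u m) 0 = 0 := fun m => slm_fderiv_even (u m) (hev m)
  have hz1 : ∀ j, Summable fun m => pd j (u m) (0 : E n) := by
    intro j
    have h1 : (fun m => pd j (u m) (0 : E n)) = fun _ => 0 := by
      funext m
      unfold pd
      rw [hfd0 m, ContinuousLinearMap.zero_apply]
    rw [h1]
    exact summable_zero
  have hG1 : ∀ j x, HasFDerivAt (fun y => ∑' m, pd j (u m) y)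
      (∑' m, fderiv ℝ (pd j (u m)) x) x := fun j x =>
    hasFDerivAt_tsum hb' (fun m x => hd1 m j x) (fun m x => hn1 m j x) (hz1 j) x
  have hpd1 : ∀ i j, pd i (fun y => ∑' m, pd j (u m) y)
      = fun x => ∑' m, pd i (pd j (u m)) x := by
    intro i j
    funext x
    change (fderiv ℝ (fun y => ∑' m, pd j (u m) y) x) (EuclideanSpace.single i (1 : ℝ))
      = ∑' m, (fderiv ℝ (pd j (u m)) x) (EuclideanSpace.single i (1 : ℝ))
    rw [(hG1 j x).fderiv]
    exact ((slm_eval (Summable.of_norm_bounded hb' fun m => hn1 m j x) _).tsum_eq).symm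
  -- the size of the first derivatives
  have hsz : ∀ m j x, |pd j (u m) x| ≤ n * b m * ‖x‖ := by
    intro m j x
    have h1 := (convex_univ : Convex ℝ (Set.univ : Set (E n))).norm_image_sub_le_of_norm_fderiv_le
      (f := pd j (u m)) (𝕜 := ℝ) (C := n * b m) (x := 0) (y := x)
      (fun y _ => (hd1 m j y).differentiableAt) (fun y _ => hn1 m j y)
      (Set.mem_univ _) (Set.mem_univ _)
    have h2 : pd j (u m) (0 : E n) = 0 := by
      unfold pd
      rw [hfd0 m, ContinuousLinearMap.zero_apply]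
    rw [h2, sub_zero, sub_zero] at h1
    exact h1
  have hn0 : ∀ m x, ‖fderiv ℝ (u m) x‖ ≤ n * (n * b m * ‖x‖) := by
    intro m x
    refine slm_norm _ _ fun j => ?_
    exact hsz m j x
  have hd0 : ∀ m x, HasFDerivAt (u m) (fderiv ℝ (u m) x) x := fun m x =>
    ((hc5 m).differentiable (by norm_num) x).hasFDerivAt
  have hz0 : Summable fun m => u m (0 : E n) := Summable.of_norm_bounded hbs fun m => h0' m
  have hball : ∀ x : E n, x ∈ Metric.ball (0 : E n) (‖x‖ + 1) := by
    intro x
    rw [Metric.mem_ball, dist_zero_right]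
    linarith
  have hball0 : ∀ x : E n, (0 : E n) ∈ Metric.ball (0 : E n) (‖x‖ + 1) := by
    intro x
    rw [Metric.mem_ball, dist_self]
    positivity
  have hloc : ∀ (x : E n) m y, y ∈ Metric.ball (0 : E n) (‖x‖ + 1) →
      ‖fderiv ℝ (u m) y‖ ≤ n * (n * b m * (‖x‖ + 1)) := by
    intro x m y hy
    rw [Metric.mem_ball, dist_zero_right] at hy
    refine (hn0 m y).trans ?_
    refine mul_le_mul_of_nonneg_left ?_ (Nat.cast_nonneg n)
    exact mul_le_mul_of_nonneg_left hy.le (mul_nonneg (Nat.cast_nonneg n) (hb0 m))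
  have hbx : ∀ x : E n, Summable fun m => (n : ℝ) * (n * b m * (‖x‖ + 1)) := fun x =>
    ((hbs.mul_left _).mul_right _).mul_left _
  have hG0 : ∀ x : E n, HasFDerivAt (fun y => ∑' m, u m y) (∑' m, fderiv ℝ (u m) x) x := by
    intro x
    exact hasFDerivAt_tsum_of_isPreconnected (hbx x) Metric.isOpen_ball
      (convex_ball (0 : E n) (‖x‖ + 1)).isPreconnected (fun m y _ => hd0 m y)
      (fun m y hy => hloc x m y hy) (hball0 x) hz0 (hball x)
  have hs0 : ∀ x : E n, Summable fun m => u m x := by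
    intro x
    exact summable_of_summable_hasFDerivAt_of_isPreconnected (hbx x) Metric.isOpen_ball
      (convex_ball (0 : E n) (‖x‖ + 1)).isPreconnected (fun m y _ => hd0 m y)
      (fun m y hy => hloc x m y hy) (hball0 x) hz0 (hball x)
  have hsd : ∀ x : E n, Summable fun m => fderiv ℝ (u m) x := fun x =>
    Summable.of_norm_bounded (hbx x) fun m => hloc x m x (hball x)
  have hpd0 : ∀ j, pd j (fun y => ∑' m, u m y) = fun x => ∑' m, pd j (u m) x := by
    intro j
    funext x
    unfold pd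
    rw [(hG0 x).fderiv]
    exact ((slm_eval (hsd x) _).tsum_eq).symm
  have hpdd : ∀ i j, pd i (pd j (fun y => ∑' m, u m y))
      = fun x => ∑' m, pd i (pd j (u m)) x := by
    intro i j
    rw [hpd0 j, hpd1 i j]
  have hss : ∀ i j x (l : List (Fin n)), l.length ≤ 3 →
      Summable fun m => pdl l (pd i (pd j (u m))) x := fun i j x l hl =>
    Summable.of_norm_bounded hbs fun m => (((hu' m).2 i j).2 l hl).1 x
  refine ⟨fun x => ∑' m, u m x, ?_, ⟨?_, ?_⟩, ?_, ?_, ?_⟩
  · intro x
    exact tsum_congr fun m => hev m x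
  · refine slm_contDiff 4 _ (fun x => (hG0 x).differentiableAt) ?_
    intro j
    rw [hpd0 j]
    refine slm_contDiff 3 _ (fun x => (hG1 j x).differentiableAt) ?_
    intro i
    rw [hpd1 i j]
    exact (hS i j).1
  · intro i j
    rw [hpdd i j]
    refine ⟨(hS i j).1, ?_⟩
    intro l hl
    refine ⟨?_, ?_⟩
    · intro x
      rw [(hS i j).2 l hl x, ← hbt]
      exact tsum_of_norm_bounded (f := fun m => pdl l (pd i (pd j (u m))) x) hbs.hasSum
        fun m => (((hu' m).2 i j).2 l hl).1 x
    · intro x y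
      rw [(hS i j).2 l hl x, (hS i j).2 l hl y, ← (hss i j x l hl).tsum_sub (hss i j y l hl),
        ← hbt, ← tsum_mul_right]
      exact tsum_of_norm_bounded
        (f := fun m => pdl l (pd i (pd j (u m))) x - pdl l (pd i (pd j (u m))) y)
        (hbs.mul_right _).hasSum fun m => (((hu' m).2 i j).2 l hl).2 x y
  · intro x
    exact (hs0 x).hasSum
  · intro x
    have h1 : eul (fun y => ∑' m, u m y) x = (∑' m, fderiv ℝ (u m) x) x := by
      unfold eul
      rw [(hG0 x).fderiv]
    rw [h1]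
    exact slm_eval (hsd x) x
  · intro x i j
    rw [hpdd i j]
    exact (hss i j x [] (by simp)).hasSum

end CM
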